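import Mathlib
import Pool.Agent.H68R2.BP.Props
import Pool.Agent.H196R2.Kad5.C1
import Pool.Agent.H228R2.Kad5.Sep
import Pool.Agent.H819R2.Kad5.C3
import Pool.Agent.H818R2.Kad5.Cen
import Pool.Agent.H130R2.Kad5.C5
import Pool.Agent.H445R2.Kad4.Range
import Pool.Agent.H201R2.Kad5.C6
import Pool.Agent.H219R2.Kad5.Comp
import Pool.Agent.H219R2.Kad5.Isom
import Pool.Agent.H649R2.Kad5.W5
import Pool.Agent.H594R2.Kad5.Pinf
import Pool.Agent.H697R2.Kad5.W12

/-!
Properly infinite central projections (G_pinf).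
-/

open scoped ComplexOrder InnerProductSpace ComplexConjugate Topology
open Finset Filter

noncomputable section

namespace H68R2.BP

open H759R2.Kad H744R2.KZ

namespace H272Pinf

universe u

/-- all von Neumann algebras have the properties Wst -/
theorem wst_all : C_wst.{u} :=
  prove6_wst prove6_chain_all (prove6_sep prove6_chain_all) prove6_polar prove6_cen
    (prove6_spec prove5_range)

theorem isom_all : W_isom.{u} := prove6_isom prove6_comp (prove6_pinf prove6_seq) prove6_sub

variable {A : Type u} [Ring A] [StarRing A]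

theorem cancel {e s : A} (hc : ∀ a, e * a = a * e) (h : star s * s = e) (x : A) (hx : e * x = x)
    (i : ℕ) : star (s ^ i) * (s ^ i * x) = x := by
  induction i with
  | zero => simp
  | succ i ih =>
    have h1 : star (s ^ (i + 1)) = star (s ^ i) * star s := by rw [pow_succ', star_mul]
    have h2 : s ^ (i + 1) * x = s * (s ^ i * x) := by rw [pow_succ', mul_assoc]
    rw [h1, h2]
    calc star (s ^ i) * star s * (s * (s ^ i * x)) = star (s ^ i) * ((star s * s) * (s ^ i * x)) := by
          simp only [mul_assoc]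
      _ = star (s ^ i) * (s ^ i * (e * x)) := by rw [h, ← mul_assoc e, hc, mul_assoc]
      _ = x := by rw [hx, ih]

theorem tuple {e s1 s2 : A} (hc : ∀ a, e * a = a * e) (h11 : star s1 * s1 = e)
    (h22 : star s2 * s2 = e) (h12 : star s1 * s2 = 0) (h2 : e * s2 = s2) (i j : ℕ) :
    star (s1 ^ i * s2) * (s1 ^ j * s2) = if i = j then e else 0 := by
  have h21 : star s2 * s1 = 0 := by
    have := congrArg star h12
    simpa using this
  have hpow : ∀ k : ℕ, e * (s1 ^ k * s2) = s1 ^ k * s2 := by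
    intro k
    rw [← mul_assoc, hc, mul_assoc, h2]
  have hlt : ∀ i k : ℕ, star (s1 ^ i * s2) * (s1 ^ (i + (k + 1)) * s2) = 0 := by
    intro i k
    rw [pow_add, star_mul, mul_assoc (star s2), mul_assoc (s1 ^ i),
      cancel hc h11 _ (hpow (k + 1)), pow_succ', mul_assoc s1, ← mul_assoc (star s2), h21, zero_mul]
  rcases lt_trichotomy i j with h | h | h
  · obtain ⟨k, rfl⟩ := Nat.exists_eq_add_of_lt h
    rw [if_neg (by omega), add_assoc]
    exact hlt i k
  · subst h
    rw [if_pos rfl, star_mul, mul_assoc (star s2), cancel hc h11 _ h2, h22]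
  · obtain ⟨k, rfl⟩ := Nat.exists_eq_add_of_lt h
    rw [if_neg (by omega), add_assoc]
    have := congrArg star (hlt j k)
    simpa [mul_assoc] using this

end H272Pinf

theorem prove_G_pinf : G_pinf := by
  intro H _ _ _ M z hz hfin n
  have hA := H272Pinf.wst_all H M
  obtain ⟨⟨hz1, hz2⟩, hzM, hzc⟩ := hz
  set e : M.toStarSubalgebra := ⟨z, hzM⟩ with he
  have hec : CPrj e := ⟨⟨Subtype.ext hz1, Subtype.ext hz2⟩, fun a => Subtype.ext (hzc a a.2)⟩
  obtain ⟨s1, s2, h11, h22, h12, -, h2⟩ := H272Pinf.isom_all M.toStarSubalgebra hA e hec (by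
    intro g hg hzg hf
    apply Subtype.ext
    refine hfin g ⟨⟨congrArg Subtype.val hg.1.1, congrArg Subtype.val hg.1.2⟩, g.2,
      fun a ha => congrArg Subtype.val (hg.2 ⟨a, ha⟩)⟩ (congrArg Subtype.val hzg) ?_
    intro v hv h3 h4
    exact congrArg Subtype.val (hf ⟨v, hv⟩ (Subtype.ext h3) (Subtype.ext h4)))
  refine ⟨fun i => ((s1 ^ (i : ℕ) * s2 : M.toStarSubalgebra) : H →L[ℂ] H), ?_, ?_⟩
  · intro i
    refine ⟨(s1 ^ (i : ℕ) * s2).2, ?_⟩
    have h : e * (s1 ^ (i : ℕ) * s2) = s1 ^ (i : ℕ) * s2 := by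
      rw [← mul_assoc, hec.2, mul_assoc, h2]
    exact congrArg Subtype.val h
  · intro i j
    have h := H272Pinf.tuple hec.2 h11 h22 h12 h2 (i : ℕ) (j : ℕ)
    have h' := congrArg Subtype.val h
    by_cases hij : i = j
    · subst hij
      rw [if_pos rfl] at h' ⊢
      exact h'
    · have : (i : ℕ) ≠ j := fun hh => hij (Fin.ext hh)
      rw [if_neg this] at h'
      rw [if_neg hij]
      exact h'

end H68R2.BP
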